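import Mathlib
import Pool.Agent.Lib.MP_002529_pr.Local

open MeasureTheory ProbabilityTheory Filter Topology
open scoped unitInterval

namespace Pool.Agent.Results.MP_002529_pr.QuenchedAnalytic

open Pool.Agent.Lib.MP_002529_pr

/-- Let `μ` be an offspring law with an exponential moment and mean `m > 1`. For almost every
Galton–Watson tree `T`, the quenched survival function `p ↦ g(T, p)` is analytic on `[1/m, 1)`: it
is the restriction of a real-analytic function defined on an open interval `(a, 1)`, `a < 1/m`. -/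
theorem result (μ : Measure ℕ) [IsProbabilityMeasure μ]
    (hexp : ∃ s : ℝ, 0 < s ∧ Integrable (fun n : ℕ => Real.exp (s * n)) μ)
    (hm : 1 < ∫ n : ℕ, (n : ℝ) ∂μ) :
    ∀ᵐ c ∂(gw μ), ∃ (a : ℝ) (f : ℝ → ℝ), a < (∫ n : ℕ, (n : ℝ) ∂μ)⁻¹ ∧
      AnalyticOnNhd ℝ f (Set.Ioo a 1) ∧
      ∀ p : I, (∫ n : ℕ, (n : ℝ) ∂μ)⁻¹ ≤ p → (p : ℝ) < 1 → surv c p = f p := by
  obtain ⟨s, hs, hint⟩ := hexp
  have hR1 : 1 < Real.exp s := Real.one_lt_exp_iff.2 hs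
  have hR : Integrable (fun n : ℕ => Real.exp s ^ n) μ := by
    refine hint.congr (ae_of_all _ fun n => ?_)
    simp only
    rw [← Real.exp_nat_mul, mul_comm]
  have hloc := fun (p₀ : ℝ) (hp₀ : p₀ ∈ Set.Ico (∫ n : ℕ, (n : ℝ) ∂μ)⁻¹ 1) =>
    local_analytic hR1 hR hm hp₀
  set m := ∫ n : ℕ, (n : ℝ) ∂μ with hmdef
  have hmIco : m⁻¹ ∈ Set.Ico m⁻¹ 1 := ⟨le_rfl, inv_lt_one_of_one_lt₀ hm⟩
  choose! δ hδ hae using hloc
  obtain ⟨t, hts, htc, htcov⟩ := TopologicalSpace.countable_cover_nhdsWithin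
    (f := fun x => Metric.ball x (δ x)) (s := Set.Ico m⁻¹ 1) fun x hx =>
      mem_nhdsWithin_of_mem_nhds (Metric.ball_mem_nhds x (hδ x hx))
  have hall : ∀ᵐ c ∂(gw μ), ∀ p₀ ∈ t, ∃ g : ℝ → ℝ,
      (∀ x ∈ Metric.ball p₀ (δ p₀), AnalyticAt ℝ g x) ∧
      ∀ x ∈ Metric.ball p₀ (δ p₀), x ∈ Set.Ico m⁻¹ 1 → survR c x = g x :=
    (ae_ball_iff htc).2 fun p₀ hp₀ => hae p₀ (hts hp₀)
  filter_upwards [hall] with c hc
  have hpt : ∀ x ∈ Set.Ico m⁻¹ 1, ∃ (g : ℝ → ℝ) (ε : ℝ), 0 < ε ∧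
      (∀ y ∈ Metric.ball x ε, AnalyticAt ℝ g y) ∧
      ∀ y ∈ Metric.ball x ε, y ∈ Set.Ico m⁻¹ 1 → survR c y = g y := by
    intro x hx
    obtain ⟨p₀, hp₀, hxp⟩ := Set.mem_iUnion₂.1 (htcov hx)
    obtain ⟨g, hg1, hg2⟩ := hc p₀ hp₀
    obtain ⟨ε, hε, hsub⟩ := Metric.isOpen_iff.1 Metric.isOpen_ball x hxp
    exact ⟨g, ε, hε, fun y hy => hg1 y (hsub hy), fun y hy => hg2 y (hsub hy)⟩
  obtain ⟨g, ε, hε, hg1, hg2⟩ := hpt m⁻¹ hmIco
  set f : ℝ → ℝ := fun x => if x < m⁻¹ then g x else survR c x with hf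
  refine ⟨m⁻¹ - ε, f, by linarith, ?_, ?_⟩
  · intro x hx
    rcases lt_trichotomy x m⁻¹ with h | h | h
    · have hxb : x ∈ Metric.ball m⁻¹ ε := by
        rw [Real.ball_eq_Ioo]; exact ⟨hx.1, by linarith⟩
      refine (hg1 x hxb).congr ?_
      filter_upwards [gt_mem_nhds h] with y hy
      simp only [hf]; rw [if_pos hy]
    · subst h
      refine (hg1 _ (Metric.mem_ball_self hε)).congr ?_
      filter_upwards [Metric.ball_mem_nhds _ hε, gt_mem_nhds hmIco.2] with y hy hy1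
      simp only [hf]
      split_ifs with h1
      · rfl
      · exact (hg2 y hy ⟨not_lt.1 h1, hy1⟩).symm
    · obtain ⟨g', ε', hε', hg1', hg2'⟩ := hpt x ⟨h.le, hx.2⟩
      refine (hg1' _ (Metric.mem_ball_self hε')).congr ?_
      filter_upwards [Metric.ball_mem_nhds _ hε', gt_mem_nhds hx.2, lt_mem_nhds h] with y hy hy1 hy2
      simp only [hf]
      rw [if_neg (not_lt.2 hy2.le)]
      exact (hg2' y hy ⟨hy2.le, hy1⟩).symm
  · intro p hp _
    simp only [hf]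
    rw [if_neg (not_lt.2 hp), survR_coe]

end Pool.Agent.Results.MP_002529_pr.QuenchedAnalytic
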